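import Mathlib

/-!
# Group cohomology by dimension shifting, elementwise

An additive group `C` with an action of `G` by additive maps (`GMod G C`), its inhomogeneous
cochains, and the comparison of the cohomology of `A` with the complex of invariants of a
resolution `A → C 0 → C 1 → …` by relatively injective modules.
-/

set_option autoImplicit false

namespace Pool.Agent.CD35

/-- An action of `G` on `C` by additive maps. -/
structure GMod (G : Type*) [Group G] (C : Type*) [AddCommGroup C] where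
  /-- the action -/
  act : G → C → C
  act_one : ∀ x, act 1 x = x
  act_mul : ∀ g h x, act (g * h) x = act g (act h x)
  act_add : ∀ g x y, act g (x + y) = act g x + act g y

namespace GMod

variable {G : Type*} [Group G] {C : Type*} [AddCommGroup C] (ρ : GMod G C)

/-- The action of `g` as an additive map. -/
def hom (g : G) : C →+ C := AddMonoidHom.mk' (ρ.act g) (ρ.act_add g)

@[simp] theorem hom_apply (g : G) (x : C) : ρ.hom g x = ρ.act g x := rfl

@[simp] theorem act_zero (g : G) : ρ.act g 0 = 0 := map_zero (ρ.hom g)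

@[simp] theorem act_neg (g : G) (x : C) : ρ.act g (-x) = -ρ.act g x := map_neg (ρ.hom g) x

@[simp] theorem act_sub (g : G) (x y : C) : ρ.act g (x - y) = ρ.act g x - ρ.act g y :=
  map_sub (ρ.hom g) x y

@[simp] theorem act_zsmul (g : G) (n : ℤ) (x : C) : ρ.act g (n • x) = n • ρ.act g x :=
  map_zsmul (ρ.hom g) n x

theorem act_sum {ι : Type*} (g : G) (s : Finset ι) (f : ι → C) :
    ρ.act g (∑ i ∈ s, f i) = ∑ i ∈ s, ρ.act g (f i) := map_sum (ρ.hom g) f s

@[simp] theorem act_inv_act (g : G) (x : C) : ρ.act g⁻¹ (ρ.act g x) = x := by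
  rw [← ρ.act_mul, inv_mul_cancel, ρ.act_one]

@[simp] theorem act_act_inv (g : G) (x : C) : ρ.act g (ρ.act g⁻¹ x) = x := by
  rw [← ρ.act_mul, mul_inv_cancel, ρ.act_one]

/-- The inhomogeneous differential. -/
def dd (n : ℕ) (f : (Fin n → G) → C) : (Fin (n + 1) → G) → C := fun g =>
  ρ.act (g 0) (f fun i => g i.succ) + ∑ j : Fin (n + 1),
    (-1 : ℤ) ^ ((j : ℕ) + 1) • f (Fin.contractNth j (· * ·) g)

theorem dd_add (n : ℕ) (f f' : (Fin n → G) → C) : ρ.dd n (f + f') = ρ.dd n f + ρ.dd n f' := by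
  ext g
  simp only [dd, Pi.add_apply, ρ.act_add, smul_add, Finset.sum_add_distrib]
  abel

/-- The differential as an additive map. -/
def ddHom (n : ℕ) : ((Fin n → G) → C) →+ ((Fin (n + 1) → G) → C) :=
  AddMonoidHom.mk' (ρ.dd n) (ρ.dd_add n)

theorem dd_sub (n : ℕ) (f f' : (Fin n → G) → C) : ρ.dd n (f - f') = ρ.dd n f - ρ.dd n f' :=
  map_sub (ρ.ddHom n) f f'

theorem dd_zero (n : ℕ) : ρ.dd n 0 = 0 := map_zero (ρ.ddHom n)

/-- Vanishing of the cohomology in degree `n + 1`. -/
def Van (n : ℕ) : Prop :=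
  ∀ f : (Fin (n + 1) → G) → C, ρ.dd (n + 1) f = 0 → ∃ e : (Fin n → G) → C, ρ.dd n e = f

/-- Equivariant maps commute with the differential. -/
theorem dd_comp {D : Type*} [AddCommGroup D] (σ : GMod G D) (p : C →+ D)
    (hp : ∀ g x, p (ρ.act g x) = σ.act g (p x)) (n : ℕ) (f : (Fin n → G) → C) :
    σ.dd n (fun g => p (f g)) = fun g => p (ρ.dd n f g) := by
  ext g
  simp only [dd, map_add, hp, map_sum, map_zsmul]

end GMod

/-! ### The square of the differential is zero -/

section Rep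

variable {G : Type} [Group G]

/-- The integral representation. -/
def GMod.toRep {C : Type} [AddCommGroup C] (ρ : GMod G C) : Representation ℤ G C where
  toFun g := (ρ.hom g).toIntLinearMap
  map_one' := by ext x; exact ρ.act_one x
  map_mul' g h := by ext x; exact ρ.act_mul g h x

theorem GMod.dd_dd {C : Type} [AddCommGroup C] (ρ : GMod G C) (n : ℕ) (f : (Fin n → G) → C) :
    ρ.dd (n + 1) (ρ.dd n f) = 0 := by
  have h := groupCohomology.inhomogeneousCochains.d_comp_d n (Rep.of ρ.toRep)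
  have h2 := congrArg (fun φ => φ.hom f) h
  exact h2

variable {k : Type} [CommRing k]

/-- The underlying additive action of a representation. -/
def ofRep (A : Rep.{0} k G) : GMod G A where
  act g x := A.ρ g x
  act_one x := by simp
  act_mul g h x := by simp
  act_add g x y := by simp

theorem ofRep_act (A : Rep.{0} k G) (g : G) (x : A) : (ofRep A).act g x = A.ρ g x := rfl

theorem dd_ofRep (A : Rep.{0} k G) (n : ℕ) (f : (Fin n → G) → A) :
    (ofRep A).dd n f = (inhomogeneousCochains.d A n).hom f := by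
  ext g
  rw [inhomogeneousCochains.d_hom_apply]
  simp only [GMod.dd, ofRep_act]
  congr 1
  refine Finset.sum_congr rfl fun j _ => ?_
  rcases Nat.even_or_odd ((j : ℕ) + 1) with h | h
  · rw [h.neg_one_pow, h.neg_one_pow, one_smul, one_smul]
  · rw [h.neg_one_pow, h.neg_one_pow, neg_smul, neg_smul, one_smul, one_smul]

theorem subsingleton_iff_van (A : Rep.{0} k G) (n : ℕ) :
    Subsingleton (groupCohomology A (n + 1)) ↔ (ofRep A).Van n := by
  rw [← ModuleCat.isZero_iff_subsingleton]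
  change CategoryTheory.Limits.IsZero
    ((groupCohomology.inhomogeneousCochains A).homology (n + 1)) ↔ _
  rw [← HomologicalComplex.exactAt_iff_isZero_homology,
    HomologicalComplex.exactAt_iff' _ n (n + 1) (n + 2) (by simp) (by simp),
    CategoryTheory.ShortComplex.moduleCat_exact_iff]
  have h1 : ((groupCohomology.inhomogeneousCochains A).sc' n (n + 1) (n + 2)).f =
      inhomogeneousCochains.d A n := groupCohomology.inhomogeneousCochains.d_def A n
  have h2 : ((groupCohomology.inhomogeneousCochains A).sc' n (n + 1) (n + 2)).g =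
      inhomogeneousCochains.d A (n + 1) := groupCohomology.inhomogeneousCochains.d_def A (n + 1)
  rw [h1, h2]
  constructor
  · intro h f hf
    rw [dd_ofRep] at hf
    obtain ⟨e, he⟩ := h f hf
    exact ⟨e, (dd_ofRep A n e).trans he⟩
  · intro h f hf
    obtain ⟨e, he⟩ := h f ((dd_ofRep A (n + 1) f).trans hf)
    exact ⟨e, (dd_ofRep A n e).symm.trans he⟩

end Rep

/-! ### Relatively injective modules -/

theorem contractNth_zero_cons {α : Type*} {n : ℕ} (op : α → α → α) (x : α) (g : Fin (n + 1) → α) :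
    Fin.contractNth 0 op (Fin.cons x g : Fin (n + 2) → α) =
      (Fin.cons (op x (g 0)) (fun i => g i.succ) : Fin (n + 1) → α) := by
  ext k
  refine Fin.cases ?_ (fun k => ?_) k
  · rw [Fin.contractNth_apply_of_eq _ _ _ _ rfl]
    rfl
  · rw [Fin.contractNth_apply_of_gt _ _ _ _ (by simp)]
    rfl

theorem contractNth_succ_cons {α : Type*} {n : ℕ} (op : α → α → α) (x : α) (g : Fin (n + 1) → α)
    (j : Fin (n + 1)) :
    Fin.contractNth j.succ op (Fin.cons x g : Fin (n + 2) → α) =
      (Fin.cons x (Fin.contractNth j op g) : Fin (n + 1) → α) := by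
  ext k
  refine Fin.cases ?_ (fun k => ?_) k
  · rw [Fin.contractNth_apply_of_lt _ _ _ _ (by simp)]
    rfl
  · rw [Fin.cons_succ]
    rcases lt_trichotomy (k : ℕ) j with h | h | h
    · rw [Fin.contractNth_apply_of_lt _ _ _ _ (by simpa using h),
        Fin.contractNth_apply_of_lt _ _ _ _ h]
      rfl
    · rw [Fin.contractNth_apply_of_eq _ _ _ _ (by simpa using h),
        Fin.contractNth_apply_of_eq _ _ _ _ h]
      rfl
    · rw [Fin.contractNth_apply_of_gt _ _ _ _ (by simpa using h),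
        Fin.contractNth_apply_of_gt _ _ _ _ h]
      rfl

namespace GMod

variable {G : Type*} [Group G] {C : Type*} [AddCommGroup C] (ρ : GMod G C)

/-- `C` is a retract of the coinduced module of functions `G → C`. -/
def RelInj : Prop :=
  ∃ T : (G → C) → C, (∀ F F', T (F + F') = T F + T F') ∧ (∀ c, T (fun _ => c) = c) ∧
    ∀ g F, T (fun x => ρ.act g (F (g⁻¹ * x))) = ρ.act g (T F)

/-- Relatively injective modules are acyclic. -/
theorem RelInj.van (h : ρ.RelInj) (n : ℕ) : ρ.Van n := by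
  obtain ⟨T, hadd, hc, hact⟩ := h
  intro f hf
  set T' : (G → C) →+ C := AddMonoidHom.mk' T hadd with hT'
  refine ⟨fun g => T' (fun x => ρ.act x (f (Fin.cons x⁻¹ g))), ?_⟩
  ext g
  have key : ∀ x : G, ρ.act x (f (Fin.cons (x⁻¹ * g 0) (fun i => g i.succ))) +
      ∑ j : Fin (n + 1), (-1 : ℤ) ^ ((j : ℕ) + 1) •
        ρ.act x (f (Fin.cons x⁻¹ (Fin.contractNth j (· * ·) g))) = f g := by
    intro x
    have h1 := congrArg (ρ.act x) (congrFun hf (Fin.cons x⁻¹ g))
    simp only [dd, Fin.cons_zero, Fin.cons_succ, Pi.zero_apply, ρ.act_zero, ρ.act_add,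
      ρ.act_act_inv] at h1
    rw [Fin.sum_univ_succ, contractNth_zero_cons] at h1
    simp only [contractNth_succ_cons, ρ.act_add, ρ.act_sum, ρ.act_zsmul, Fin.val_zero, zero_add,
      pow_one, Fin.val_succ, neg_smul, one_smul, ρ.act_neg] at h1
    have h2 : ∑ j : Fin (n + 1), (-1 : ℤ) ^ ((j : ℕ) + 1 + 1) •
        ρ.act x (f (Fin.cons x⁻¹ (Fin.contractNth j (· * ·) g))) =
        - ∑ j : Fin (n + 1), (-1 : ℤ) ^ ((j : ℕ) + 1) •
          ρ.act x (f (Fin.cons x⁻¹ (Fin.contractNth j (· * ·) g))) := by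
      rw [← Finset.sum_neg_distrib]
      refine Finset.sum_congr rfl fun j _ => ?_
      rw [pow_succ, mul_neg_one, neg_smul]
    rw [h2] at h1
    have h7 : f g = ρ.act x (f (Fin.cons (x⁻¹ * g 0) (fun i => g i.succ))) +
      ∑ j : Fin (n + 1), (-1 : ℤ) ^ ((j : ℕ) + 1) •
        ρ.act x (f (Fin.cons x⁻¹ (Fin.contractNth j (· * ·) g))) := by
      rw [← sub_eq_zero, ← h1]
      abel
    exact h7.symm
  have h3 : ρ.act (g 0) (T' fun x => ρ.act x (f (Fin.cons x⁻¹ (fun i => g i.succ)))) =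
      T' fun x => ρ.act x (f (Fin.cons (x⁻¹ * g 0) (fun i => g i.succ))) := by
    have h4 := hact (g 0) (fun x => ρ.act x (f (Fin.cons x⁻¹ (fun i => g i.succ))))
    rw [hT', AddMonoidHom.mk'_apply, ← h4]
    change T _ = T _
    congr 1
    ext x
    rw [← ρ.act_mul, mul_inv_cancel_left, mul_inv_rev, inv_inv]
  have h5 : ρ.dd n (fun g => T' fun x => ρ.act x (f (Fin.cons x⁻¹ g))) g =
      T' ((fun x => ρ.act x (f (Fin.cons (x⁻¹ * g 0) (fun i => g i.succ)))) +
        ∑ j : Fin (n + 1), (-1 : ℤ) ^ ((j : ℕ) + 1) •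
        fun x => ρ.act x (f (Fin.cons x⁻¹ (Fin.contractNth j (· * ·) g)))) := by
    rw [dd, h3, map_add, map_sum]
    simp only [map_zsmul]
  rw [h5]
  have h6 : ((fun x => ρ.act x (f (Fin.cons (x⁻¹ * g 0) (fun i => g i.succ)))) +
        ∑ j : Fin (n + 1), (-1 : ℤ) ^ ((j : ℕ) + 1) •
        fun x => ρ.act x (f (Fin.cons x⁻¹ (Fin.contractNth j (· * ·) g)))) = fun _ => f g := by
    ext x
    rw [Pi.add_apply, Finset.sum_apply, ← key x]
    rfl
  rw [h6, hT', AddMonoidHom.mk'_apply, hc]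

end GMod

/-! ### Free actions -/

/-- An equivariant map from a free `G`-set to `G`. -/
theorem exists_gamma {G : Type*} [Group G] {X : Type*} [MulAction G X]
    (hfree : ∀ (g : G) (x : X), g • x = x → g = 1) :
    ∃ γ : X → G, ∀ (g : G) (x : X), γ (g • x) = g * γ x := by
  classical
  have hex : ∀ x : X, ∃ g : G,
      g • (Quotient.out (s := MulAction.orbitRel G X) (Quotient.mk'' x)) = x := by
    intro x
    have h := Quotient.exact (s := MulAction.orbitRel G X)
      (Quotient.out_eq (s := MulAction.orbitRel G X) (Quotient.mk'' x))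
    obtain ⟨g, hg⟩ := (MulAction.orbitRel G X).symm h
    exact ⟨g, hg⟩
  choose γ hγ using hex
  refine ⟨γ, fun g x => ?_⟩
  have h1 := hγ (g • x)
  have h2 : (Quotient.mk'' (g • x) : Quotient (MulAction.orbitRel G X)) = Quotient.mk'' x :=
    Quotient.sound (s := MulAction.orbitRel G X) ⟨g, rfl⟩
  rw [h2] at h1
  have h3 : (γ x)⁻¹ • x =
      Quotient.out (s := MulAction.orbitRel G X) (Quotient.mk'' x) := by
    rw [inv_smul_eq_iff]
    exact (hγ x).symm
  rw [← h3, smul_smul] at h1
  have h4 : (g⁻¹ * (γ (g • x) * (γ x)⁻¹)) • x = x := by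
    rw [mul_smul, h1, inv_smul_smul]
  have h5 := hfree _ _ h4
  rw [inv_mul_eq_one, eq_mul_inv_iff_mul_eq] at h5
  exact h5.symm

/-- A module of functions on a free `G`-set is relatively injective. -/
theorem GMod.relInj_of_ev {G : Type*} [Group G] {C : Type*} [AddCommGroup C] (ρ : GMod G C)
    {M : Type*} [AddCommGroup M] (μ : GMod G M) {X : Type*} [MulAction G X] (γ : X → G)
    (hγ : ∀ (g : G) (x : X), γ (g • x) = g * γ x) (ev : C →+ (X → M))
    (hinj : Function.Injective ev)
    (hact : ∀ g c x, ev (ρ.act g c) x = μ.act g (ev c (g⁻¹ • x)))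
    (hsel : ∀ F : G → C, ∃ c, ∀ x, ev c x = ev (F (γ x)) x) : ρ.RelInj := by
  choose T hT using hsel
  refine ⟨T, fun F F' => hinj (funext fun x => ?_), fun c => hinj (funext fun x => ?_),
    fun g F => hinj (funext fun x => ?_)⟩
  · rw [map_add, Pi.add_apply, hT, hT, hT, Pi.add_apply, map_add, Pi.add_apply]
  · rw [hT]
  · rw [hT, hact, hact, hT, hγ]

/-! ### Dimension shifting -/

/-- The exact sequence `0 → A → C → B → 0`. -/
structure Ses {G : Type} [Group G] {A C B : Type} [AddCommGroup A] [AddCommGroup C]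
    [AddCommGroup B] (α : GMod G A) (γ : GMod G C) (β : GMod G B) (i : A →+ C) (p : C →+ B) :
    Prop where
  inj : Function.Injective i
  surj : Function.Surjective p
  exact : ∀ x, p x = 0 ↔ ∃ a, i a = x
  iact : ∀ g a, i (α.act g a) = γ.act g (i a)
  pact : ∀ g x, p (γ.act g x) = β.act g (p x)

namespace Ses

variable {G : Type} [Group G] {A C B : Type} [AddCommGroup A] [AddCommGroup C]
    [AddCommGroup B] {α : GMod G A} {γ : GMod G C} {β : GMod G B} {i : A →+ C} {p : C →+ B}

theorem lift_cochain (h : Ses α γ β i p) {X : Type} (f : X → C) (hf : ∀ x, p (f x) = 0) :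
    ∃ e : X → A, (fun x => i (e x)) = f := by
  choose e he using fun x => (h.exact (f x)).1 (hf x)
  exact ⟨e, funext he⟩

theorem inj_cochain (h : Ses α γ β i p) {X : Type} {f f' : X → A}
    (hf : (fun x => i (f x)) = fun x => i (f' x)) : f = f' :=
  funext fun x => h.inj (congrFun hf x)

theorem van_shift (h : Ses α γ β i p) (n : ℕ) (h1 : γ.Van n) (h2 : γ.Van (n + 1)) :
    α.Van (n + 1) ↔ β.Van n := by
  constructor
  · intro hα f hf
    choose f' hf' using fun g => h.surj (f g)
    have hf1 : (fun g => p (f' g)) = f := funext hf'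
    have h3 : ∀ g, p (γ.dd (n + 1) f' g) = 0 := fun g => by
      have := congrFun (γ.dd_comp β p h.pact (n + 1) f') g
      rw [hf1, hf] at this
      exact this.symm
    obtain ⟨a, ha⟩ := h.lift_cochain _ h3
    have h4 : α.dd (n + 2) a = 0 := h.inj_cochain (by
      rw [← α.dd_comp γ i h.iact, ha, γ.dd_dd]
      ext g
      simp)
    obtain ⟨a', ha'⟩ := hα a h4
    have h5 : γ.dd (n + 1) (f' - fun g => i (a' g)) = 0 := by
      rw [γ.dd_sub, α.dd_comp γ i h.iact, ha', ha, sub_self]
    obtain ⟨e, he⟩ := h1 _ h5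
    refine ⟨fun g => p (e g), ?_⟩
    rw [γ.dd_comp β p h.pact, he]
    ext g
    rw [Pi.sub_apply, map_sub, (h.exact _).2 ⟨a' g, rfl⟩, sub_zero, hf']
  · intro hβ f hf
    have h3 : γ.dd (n + 2) (fun g => i (f g)) = 0 := by
      rw [α.dd_comp γ i h.iact, hf]
      ext g
      simp
    obtain ⟨c, hc⟩ := h2 _ h3
    have h4 : β.dd (n + 1) (fun g => p (c g)) = 0 := by
      rw [γ.dd_comp β p h.pact, hc]
      ext g
      rw [(h.exact _).2 ⟨f g, rfl⟩]
      rfl
    obtain ⟨b, hb⟩ := hβ _ h4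
    choose b' hb' using fun g => h.surj (b g)
    have h5 : ∀ g, p ((c - γ.dd n b') g) = 0 := by
      intro g
      have h6 := congrFun (γ.dd_comp β p h.pact n b') g
      rw [funext hb', hb] at h6
      rw [Pi.sub_apply, map_sub, ← h6, sub_self]
    obtain ⟨a, ha⟩ := h.lift_cochain _ h5
    refine ⟨a, h.inj_cochain ?_⟩
    rw [← α.dd_comp γ i h.iact, ha, γ.dd_sub, γ.dd_dd, sub_zero, hc]

theorem dd_zero_eq_zero {D : Type} [AddCommGroup D] (δ : GMod G D) (f : (Fin 0 → G) → D) :
    δ.dd 0 f = 0 ↔ ∀ g, δ.act g (f default) = f default := by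
  have h1 : ∀ g, δ.dd 0 f g = δ.act (g 0) (f default) - f default := by
    intro g
    rw [GMod.dd, Fin.sum_univ_one]
    have e1 : (fun i : Fin 0 => g i.succ) = default := Subsingleton.elim _ _
    have e2 : Fin.contractNth 0 (· * ·) g = default := Subsingleton.elim _ _
    rw [e1, e2]
    simp [sub_eq_add_neg]
  constructor
  · intro h g
    have := h1 (fun _ => g)
    rw [h] at this
    exact sub_eq_zero.1 this.symm
  · intro h
    ext g
    rw [h1, h, sub_self]
    rfl

theorem van_base (h : Ses α γ β i p) (h1 : γ.Van 0) :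
    α.Van 0 ↔ ∀ b, (∀ g, β.act g b = b) → ∃ c, (∀ g, γ.act g c = c) ∧ p c = b := by
  constructor
  · intro hα b hb
    obtain ⟨c, hc⟩ := h.surj b
    have h3 : ∀ g, p (γ.dd 0 (fun _ => c) g) = 0 := fun g => by
      have h4 := congrFun (γ.dd_comp β p h.pact 0 (fun _ => c)) g
      rw [← h4, (dd_zero_eq_zero β _).2]
      · rfl
      · intro g
        rw [hc, hb]
    obtain ⟨a, ha⟩ := h.lift_cochain _ h3
    have h4 : α.dd 1 a = 0 := h.inj_cochain (by
      rw [← α.dd_comp γ i h.iact, ha, γ.dd_dd]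
      ext g
      simp)
    obtain ⟨a', ha'⟩ := hα a h4
    have h5 : γ.dd 0 ((fun _ => c) - fun g => i (a' g)) = 0 := by
      rw [γ.dd_sub, α.dd_comp γ i h.iact, ha', ha, sub_self]
    rw [dd_zero_eq_zero] at h5
    refine ⟨_, h5, ?_⟩
    rw [Pi.sub_apply, map_sub, (h.exact _).2 ⟨a' _, rfl⟩, sub_zero, hc]
  · intro hβ f hf
    have h3 : γ.dd 1 (fun g => i (f g)) = 0 := by
      rw [α.dd_comp γ i h.iact, hf]
      ext g
      simp
    obtain ⟨c, hc⟩ := h1 _ h3
    have h4 : β.dd 0 (fun g => p (c g)) = 0 := by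
      rw [γ.dd_comp β p h.pact, hc]
      ext g
      rw [(h.exact _).2 ⟨f g, rfl⟩]
      rfl
    rw [dd_zero_eq_zero] at h4
    obtain ⟨c', hc', hpc⟩ := hβ _ h4
    obtain ⟨a, ha⟩ := (h.exact (c default - c')).1 (by rw [map_sub, hpc, sub_self])
    refine ⟨fun _ => a, h.inj_cochain ?_⟩
    rw [← α.dd_comp γ i h.iact, ← hc]
    have h5 : (fun _ => i a) = c - fun _ => c' := by
      ext g
      rw [ha, Pi.sub_apply, Subsingleton.elim g default]
    rw [h5, γ.dd_sub, (dd_zero_eq_zero γ (fun _ => c')).2 hc', sub_zero]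

end Ses

/-! ### The main theorem -/

section Main

variable {G : Type} [Group G]

/-- The submodule of cycles. -/
def GMod.ker {C D : Type} [AddCommGroup C] [AddCommGroup D] (γ : GMod G C) (δ : GMod G D)
    (d : C →+ D) (hd : ∀ g x, d (γ.act g x) = δ.act g (d x)) : GMod G d.ker where
  act g x := ⟨γ.act g x.1, by rw [AddMonoidHom.mem_ker, hd, x.2, δ.act_zero]⟩
  act_one x := Subtype.ext (γ.act_one _)
  act_mul g h x := Subtype.ext (γ.act_mul _ _ _)
  act_add g x y := Subtype.ext (γ.act_add _ _ _)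

theorem van_iff (n : ℕ) : ∀ {A : Type} [AddCommGroup A] (α : GMod G A) (C : ℕ → Type)
    [∀ n, AddCommGroup (C n)] (γ : ∀ n, GMod G (C n)) (_ : ∀ m ≤ n, (γ m).RelInj)
    (i : A →+ C 0) (_ : Function.Injective i) (_ : ∀ g a, i (α.act g a) = (γ 0).act g (i a))
    (d : ∀ n, C n →+ C (n + 1)) (_ : ∀ n g x, d n ((γ n).act g x) = (γ (n + 1)).act g (d n x))
    (_ : ∀ x, d 0 x = 0 ↔ ∃ a, i a = x) (_ : ∀ m < n + 1, ∀ x, d (m + 1) x = 0 ↔ ∃ y, d m y = x),
    α.Van n ↔ ∀ x : C (n + 1), (∀ g, (γ (n + 1)).act g x = x) → d (n + 1) x = 0 →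
      ∃ y : C n, (∀ g, (γ n).act g y = y) ∧ d n y = x := by
  induction n with
  | zero =>
    intro A _ α C _ γ hγ i hi hiG d hdG h0 h1
    set p : C 0 →+ (d 1).ker := (d 0).codRestrict _ (fun x => (h1 0 (by omega) _).2 ⟨x, rfl⟩)
      with hp
    have hs : Ses α (γ 0) ((γ 1).ker (γ 2) (d 1) (hdG 1)) i p :=
      { inj := hi
        surj := fun x => by
          obtain ⟨y, hy⟩ := (h1 0 (by omega) x.1).1 x.2
          exact ⟨y, Subtype.ext hy⟩
        exact := fun x => by
          rw [← h0 x, hp]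
          exact ⟨fun h => congrArg Subtype.val h, fun h => Subtype.ext h⟩
        iact := hiG
        pact := fun g x => Subtype.ext (hdG 0 g x) }
    rw [hs.van_base ((hγ 0 le_rfl).van _ 0)]
    constructor
    · intro h x hx hdx
      obtain ⟨y, hy, hyx⟩ := h ⟨x, hdx⟩ (fun g => Subtype.ext (hx g))
      exact ⟨y, hy, congrArg Subtype.val hyx⟩
    · intro h b hb
      obtain ⟨y, hy, hyx⟩ := h b.1 (fun g => congrArg Subtype.val (hb g)) b.2
      exact ⟨y, hy, Subtype.ext hyx⟩
  | succ n ih =>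
    intro A _ α C _ γ hγ i hi hiG d hdG h0 h1
    set p : C 0 →+ (d 1).ker := (d 0).codRestrict _ (fun x => (h1 0 (by omega) _).2 ⟨x, rfl⟩)
      with hp
    have hs : Ses α (γ 0) ((γ 1).ker (γ 2) (d 1) (hdG 1)) i p :=
      { inj := hi
        surj := fun x => by
          obtain ⟨y, hy⟩ := (h1 0 (by omega) x.1).1 x.2
          exact ⟨y, Subtype.ext hy⟩
        exact := fun x => by
          rw [← h0 x, hp]
          exact ⟨fun h => congrArg Subtype.val h, fun h => Subtype.ext h⟩
        iact := hiG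
        pact := fun g x => Subtype.ext (hdG 0 g x) }
    rw [hs.van_shift n ((hγ 0 (by omega)).van _ n) ((hγ 0 (by omega)).van _ (n + 1))]
    exact ih ((γ 1).ker (γ 2) (d 1) (hdG 1)) (fun m => C (m + 1)) (fun m => γ (m + 1))
      (fun m hm => hγ (m + 1) (by omega)) (d 1).ker.subtype Subtype.val_injective
      (fun _ _ => rfl) (fun m => d (m + 1)) (fun m => hdG (m + 1))
      (fun x => ⟨fun h => ⟨⟨x, h⟩, rfl⟩, by rintro ⟨a, rfl⟩; exact a.2⟩)
      (fun m hm => h1 (m + 1) (by omega))

/-- Group cohomology in terms of the invariants of a resolution by relatively injective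
modules. -/
theorem subsingleton_iff {k : Type} [CommRing k] (A : Rep.{0} k G) (n : ℕ) (C : ℕ → Type)
    [∀ n, AddCommGroup (C n)] (γ : ∀ n, GMod G (C n)) (hγ : ∀ m ≤ n, (γ m).RelInj)
    (i : A →+ C 0) (hi : Function.Injective i) (hiG : ∀ g a, i (A.ρ g a) = (γ 0).act g (i a))
    (d : ∀ n, C n →+ C (n + 1)) (hdG : ∀ n g x, d n ((γ n).act g x) = (γ (n + 1)).act g (d n x))
    (h0 : ∀ x, d 0 x = 0 ↔ ∃ a, i a = x)
    (h1 : ∀ m < n + 1, ∀ x, d (m + 1) x = 0 ↔ ∃ y, d m y = x) :
    Subsingleton (groupCohomology A (n + 1)) ↔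
      ∀ x : C (n + 1), (∀ g, (γ (n + 1)).act g x = x) → d (n + 1) x = 0 →
        ∃ y : C n, (∀ g, (γ n).act g y = y) ∧ d n y = x := by
  rw [subsingleton_iff_van]
  exact van_iff n (ofRep A) C γ hγ i hi hiG d hdG h0 h1

end Main

end Pool.Agent.CD35
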